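import Pool.Agent.Run7.h473.MD.Iface3

set_option autoImplicit false

namespace Run7.h617.MD

open Complex Filter Topology MeasureTheory Set
open Pool.Agent.Q48.MDS Pool.Agent.N879.QM Pool.Agent.Run7.h473.MD

/-! ### Products of series -/

theorem prodsum (k : ℕ) : ∀ (f : Fin k → ℕ → ℂ), (∀ j, Summable (fun n => ‖f j n‖)) →
    Summable (fun n : Fin k → ℕ => ‖∏ j, f j (n j)‖) ∧
    ∑' n : Fin k → ℕ, ∏ j, f j (n j) = ∏ j, ∑' n, f j n := by
  induction k with
  | zero =>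
    intro f _
    refine ⟨Summable.of_finite, ?_⟩
    simp
  | succ k ih =>
    intro f hf
    obtain ⟨h1, h2⟩ := ih (fun j => f j.succ) (fun j => hf j.succ)
    have h0 := hf 0
    have e : ∀ p : ℕ × (Fin k → ℕ),
        ∏ j, f j ((Fin.consEquiv (fun _ : Fin (k + 1) => ℕ) p) j) =
          f 0 p.1 * ∏ j : Fin k, f j.succ (p.2 j) := by
      intro p
      rw [Fin.prod_univ_succ]
      rfl
    constructor
    · rw [← (Fin.consEquiv (fun _ : Fin (k + 1) => ℕ)).summable_iff]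
      have h3 := Summable.mul_norm h0 h1
      refine h3.congr (fun p => ?_)
      simp only [Function.comp_apply]
      rw [e p]
    · rw [← (Fin.consEquiv (fun _ : Fin (k + 1) => ℕ)).tsum_eq]
      simp only [e]
      rw [← tsum_mul_tsum_of_summable_norm h0 h1, h2, Fin.prod_univ_succ]

/-! ### The characters -/

theorem norm_vl_le (d n : ℕ) : ‖vl 1 d n‖ ≤ 1 := DirichletCharacter.norm_le_one _ _

theorem vl_mul (d m n : ℕ) : vl 1 d (m * n) = vl 1 d m * vl 1 d n := by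
  unfold vl
  rw [Nat.cast_mul, map_mul]

theorem vl_one (d : ℕ) : vl 1 d 1 = 1 := by
  unfold vl
  rw [Nat.cast_one, map_one]

theorem vl_prod (d : ℕ) {k : ℕ} (n : Fin k → ℕ) : vl 1 d (∏ j, n j) = ∏ j, vl 1 d (n j) := by
  unfold vl
  rw [Nat.cast_prod, map_prod]

theorem LL_ser (d : ℕ) (hd : Is 1 d) (s : ℂ) (hs : 1 < s.re) :
    LL 1 d s = ∑' n : ℕ, vl 1 d n * (n : ℂ) ^ (-s) := by
  have hd0 : d ≠ 0 := by
    have := hd.1
    omega
  have : NeZero d := ⟨hd0⟩
  unfold LL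
  rw [dif_pos hd0, DirichletCharacter.LFunction_eq_LSeries _ hs]
  unfold LSeries
  refine tsum_congr (fun n => ?_)
  rw [LSeries.term_def]
  by_cases hn : n = 0
  · subst hn
    rw [if_pos rfl]
    have h0 : -s ≠ 0 := by
      intro h
      have := congrArg Complex.re h
      simp at this
      linarith
    rw [Nat.cast_zero, Complex.zero_cpow h0, mul_zero]
  · rw [if_neg hn, Complex.cpow_neg, div_eq_mul_inv]
    rfl

theorem summable_pow (s : ℂ) (hs : 1 < s.re) : Summable (fun n : ℕ => ‖(n : ℂ) ^ (-s)‖) := by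
  have h1 : (fun n : ℕ => ‖(n : ℂ) ^ (-s)‖) = fun n : ℕ => (n : ℝ) ^ (-s.re) := by
    funext n
    rw [Complex.norm_natCast_cpow_of_re_ne_zero n (by rw [neg_re]; linarith), neg_re]
  rw [h1, Real.summable_nat_rpow]
  linarith

/-! ### The averages -/

open Classical in
/-- the coefficients -/
noncomputable def aa (m d : ℕ) : ℂ := if Is 1 d then vl 1 d m else 0

theorem norm_aa (m d : ℕ) : ‖aa m d‖ ≤ 1 := by
  unfold aa
  split_ifs
  · exact norm_vl_le d m
  · rw [norm_zero]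
    exact zero_le_one

open Classical in
theorem sum_aa (m N : ℕ) : ∑ d ∈ Finset.range (N + 1), aa m d =
    ∑ q ∈ Q 1 ((N : ℝ) + 1), vl 1 q m := by
  unfold Q
  rw [Finset.sum_filter]
  have h1 : ⌈(N : ℝ) + 1⌉₊ = N + 1 := by
    have : (N : ℝ) + 1 = ((N + 1 : ℕ) : ℝ) := by push_cast; ring
    rw [this, Nat.ceil_natCast]
  rw [h1]
  unfold aa
  symm
  refine Finset.sum_subset ?_ ?_
  · intro q hq
    rw [Finset.mem_Ico] at hq
    rw [Finset.mem_range]
    exact hq.2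
  · intro q hq hq2
    rw [Finset.mem_range] at hq
    rw [Finset.mem_Ico] at hq2
    rw [if_neg]
    intro h
    exact hq2 ⟨h.1, hq⟩

/-- the ratio -/
noncomputable def rr (X : ℝ) : ℝ := Real.exp (-(1 / X))

theorem rr_pow (X : ℝ) (d : ℕ) : Real.exp (-(d / X)) = rr X ^ d := by
  unfold rr
  rw [← Real.exp_nat_mul]
  congr 1
  ring

theorem rr_pos (X : ℝ) : 0 < rr X := Real.exp_pos _

theorem rr_lt {X : ℝ} (hX : 1 ≤ X) : rr X < 1 := by
  unfold rr
  rw [Real.exp_lt_one_iff]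
  have : 0 < 1 / X := by positivity
  linarith

theorem one_sub_rr {X : ℝ} (hX : 1 ≤ X) : 1 / (2 * X) ≤ 1 - rr X := by
  unfold rr
  have hX0 : 0 < X := by linarith
  have h1 : 0 < 1 / X := by positivity
  have h2 : 1 / X ≤ 1 := by
    rw [div_le_one hX0]
    exact hX
  -- exp (-t) ≤ 1 / (1 + t)
  have h3 : Real.exp (-(1 / X)) ≤ (1 + 1 / X)⁻¹ := by
    rw [Real.exp_neg]
    refine inv_anti₀ (by positivity) ?_
    have := Real.add_one_le_exp (1 / X)
    linarith
  have h4 : (1 + 1 / X)⁻¹ = 1 - (1 / X) * (1 + 1 / X)⁻¹ := by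
    field_simp
    ring
  have h5 : (1 : ℝ) / 2 ≤ (1 + 1 / X)⁻¹ := by
    rw [one_div]
    exact inv_anti₀ (by positivity) (by linarith)
  have h6 : 1 / X * (1 / 2) ≤ (1 / X) * (1 + 1 / X)⁻¹ := mul_le_mul_of_nonneg_left h5 h1.le
  have h7 : 1 / (2 * X) = 1 / X * (1 / 2) := by
    field_simp
  rw [h7]
  linarith

theorem lim_rr : Tendsto (fun X : ℝ => (X * (1 - rr X))⁻¹) atTop (𝓝 1) := by
  have h1 : Tendsto (fun X : ℝ => X * (1 - rr X)) atTop (𝓝 1) := by
    -- between (1 + 1/X)⁻¹ and 1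
    have hlo : Tendsto (fun X : ℝ => (1 + 1 / X)⁻¹) atTop (𝓝 1) := by
      have h2 : Tendsto (fun X : ℝ => 1 + 1 / X) atTop (𝓝 (1 + 0)) :=
        tendsto_const_nhds.add (tendsto_const_nhds.div_atTop tendsto_id)
      have h3 := h2.inv₀ (by norm_num)
      simpa using h3
    refine tendsto_of_tendsto_of_tendsto_of_le_of_le' hlo tendsto_const_nhds ?_ ?_
    · filter_upwards [eventually_ge_atTop (1 : ℝ)] with X hX
      have hX0 : 0 < X := by linarith
      have h3 : Real.exp (-(1 / X)) ≤ (1 + 1 / X)⁻¹ := by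
        rw [Real.exp_neg]
        refine inv_anti₀ (by positivity) ?_
        have := Real.add_one_le_exp (1 / X)
        linarith
      have h4 : X * (1 - (1 + 1 / X)⁻¹) = (1 + 1 / X)⁻¹ := by
        field_simp
        ring
      rw [← h4]
      unfold rr
      exact mul_le_mul_of_nonneg_left (by linarith) hX0.le
    · filter_upwards [eventually_ge_atTop (1 : ℝ)] with X hX
      have hX0 : 0 < X := by linarith
      have h5 := Real.add_one_le_exp (-(1 / X))
      unfold rr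
      calc X * (1 - Real.exp (-(1 / X))) ≤ X * (1 / X) :=
            mul_le_mul_of_nonneg_left (by linarith) hX0.le
        _ = 1 := by field_simp
  have h2 := h1.inv₀ (by norm_num)
  simpa using h2

/-- the smoothed average -/
noncomputable def sa (m : ℕ) (X : ℝ) : ℂ := ∑' d : ℕ, aa m d * ((rr X ^ d : ℝ) : ℂ)

theorem sa_summable (m : ℕ) {X : ℝ} (hX : 1 ≤ X) :
    Summable (fun d : ℕ => ‖aa m d * ((rr X ^ d : ℝ) : ℂ)‖) := by
  refine Summable.of_nonneg_of_le (fun _ => norm_nonneg _) (fun d => ?_)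
    (summable_geometric_of_lt_one (rr_pos X).le (rr_lt hX))
  rw [norm_mul, Complex.norm_real, Real.norm_of_nonneg (pow_nonneg (rr_pos X).le d)]
  have := norm_aa m d
  have h2 : 0 ≤ rr X ^ d := pow_nonneg (rr_pos X).le d
  nlinarith

theorem sa_bound (m : ℕ) {X : ℝ} (hX : 1 ≤ X) : ‖sa m X / (X : ℂ)‖ ≤ 2 := by
  have hX0 : 0 < X := by linarith
  have h1 : ‖sa m X‖ ≤ ∑' d : ℕ, rr X ^ d := by
    refine (norm_tsum_le_tsum_norm (sa_summable m hX)).trans ?_
    refine (sa_summable m hX).tsum_le_tsum (fun d => ?_)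
      (summable_geometric_of_lt_one (rr_pos X).le (rr_lt hX))
    rw [norm_mul, Complex.norm_real, Real.norm_of_nonneg (pow_nonneg (rr_pos X).le d)]
    have := norm_aa m d
    have h2 : 0 ≤ rr X ^ d := pow_nonneg (rr_pos X).le d
    nlinarith
  rw [tsum_geometric_of_lt_one (rr_pos X).le (rr_lt hX)] at h1
  have h2 := one_sub_rr hX
  have h3 : (1 - rr X)⁻¹ ≤ 2 * X := by
    rw [inv_le_comm₀ (by linarith [rr_lt hX]) (by positivity)]
    rw [← one_div]
    exact h2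
  rw [norm_div, Complex.norm_real, Real.norm_of_nonneg hX0.le, div_le_iff₀ hX0]
  linarith

theorem am_gm (a q : ℝ) (hq : 0 < q) : a ≤ (a * a / q + q) / 2 := by
  have h1 : (a * a / q + q) / 2 - a = (a - q) ^ 2 / (2 * q) := by
    field_simp
    ring
  have h2 : 0 ≤ (a - q) ^ 2 / (2 * q) := by positivity
  linarith

theorem sa_asymp (m : ℕ) (c K : ℝ) (hK : 0 ≤ K)
    (h : ∀ N : ℕ, ‖(∑ d ∈ Finset.range (N + 1), aa m d) - ((c * ((N : ℝ) + 1) : ℝ) : ℂ)‖ ≤
      K * √((N : ℝ) + 1)) {X : ℝ} (hX : 1 ≤ X) :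
    ‖sa m X - ((c * (1 - rr X)⁻¹ : ℝ) : ℂ)‖ ≤ 2 * K * √X := by
  have hX0 : 0 < X := by linarith
  set r := rr X with hr
  have hr0 : 0 < r := rr_pos X
  have hr1 : r < 1 := rr_lt hX
  have hgs : Summable (fun n : ℕ => r ^ n) := summable_geometric_of_lt_one hr0.le hr1
  have hgn : Summable (fun n : ℕ => ‖((r ^ n : ℝ) : ℂ)‖) := by
    refine hgs.congr (fun n => ?_)
    rw [Complex.norm_real, Real.norm_of_nonneg (pow_nonneg hr0.le n)]
  have hgeo : ∑' n : ℕ, ((r ^ n : ℝ) : ℂ) = (((1 - r)⁻¹ : ℝ) : ℂ) := by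
    rw [← Complex.ofReal_tsum, tsum_geometric_of_lt_one hr0.le hr1]
  have hterm : ∀ N : ℕ, ∑ k ∈ Finset.range (N + 1), aa m k * ((r ^ k : ℝ) : ℂ) *
      ((r ^ (N - k) : ℝ) : ℂ) = ((r ^ N : ℝ) : ℂ) * ∑ d ∈ Finset.range (N + 1), aa m d := by
    intro N
    rw [Finset.mul_sum]
    refine Finset.sum_congr rfl (fun k hk => ?_)
    rw [Finset.mem_range] at hk
    have : r ^ N = r ^ k * r ^ (N - k) := by
      rw [← pow_add]
      congr 1
      omega
    rw [this]
    push_cast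
    ring
  have hcau : sa m X * (∑' n : ℕ, ((r ^ n : ℝ) : ℂ)) =
      ∑' N : ℕ, ((r ^ N : ℝ) : ℂ) * ∑ d ∈ Finset.range (N + 1), aa m d := by
    unfold sa
    rw [tsum_mul_tsum_eq_tsum_sum_range_of_summable_norm (sa_summable m hX) hgn]
    exact tsum_congr hterm
  rw [hgeo] at hcau
  -- the series of n+1
  have hnr : ‖r‖ < 1 := by rw [Real.norm_of_nonneg hr0.le]; exact hr1
  have hs1 : HasSum (fun n : ℕ => ((n : ℝ) + 1) * r ^ n) (1 / (1 - r) ^ 2) := by
    have h1 := hasSum_coe_mul_geometric_of_norm_lt_one hnr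
    have h2 := hasSum_geometric_of_lt_one hr0.le hr1
    have h3 := h1.add h2
    have e1 : r / (1 - r) ^ 2 + (1 - r)⁻¹ = 1 / (1 - r) ^ 2 := by
      have : 1 - r ≠ 0 := by linarith
      field_simp
      ring
    rw [e1] at h3
    refine h3.congr_fun ?_
    intro n
    ring
  have hB : Summable (fun n : ℕ => (((n : ℝ) + 1) / √X + √X) * r ^ n) := by
    have h1 := (hs1.summable.mul_left (1 / √X)).add (hgs.mul_left (√X))
    refine h1.congr (fun n => ?_)
    ring
  have hBv : ∑' n : ℕ, (((n : ℝ) + 1) / √X + √X) * r ^ n =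
      (1 / √X) * (1 / (1 - r) ^ 2) + √X * (1 - r)⁻¹ := by
    rw [← hs1.tsum_eq, ← tsum_geometric_of_lt_one hr0.le hr1, ← tsum_mul_left, ← tsum_mul_left,
      ← (hs1.summable.mul_left (1 / √X)).tsum_add (hgs.mul_left (√X))]
    refine tsum_congr (fun n => ?_)
    ring
  have hsq : 0 < √X := Real.sqrt_pos.2 hX0
  have hX2 : √X * √X = X := Real.mul_self_sqrt hX0.le
  have hroot : ∀ n : ℕ, √((n : ℝ) + 1) ≤ (((n : ℝ) + 1) / √X + √X) / 2 := by
    intro n
    have h1 := am_gm (√((n : ℝ) + 1)) (√X) hsq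
    rwa [Real.mul_self_sqrt (by positivity)] at h1
  -- difference
  have hA : Summable (fun N : ℕ => ((r ^ N : ℝ) : ℂ) * ∑ d ∈ Finset.range (N + 1), aa m d) := by
    have h1 := (summable_norm_sum_mul_range_of_summable_norm (sa_summable m hX) hgn)
    have h2 : Summable (fun N : ℕ => ∑ k ∈ Finset.range (N + 1), aa m k * ((r ^ k : ℝ) : ℂ) *
      ((r ^ (N - k) : ℝ) : ℂ)) := h1.of_norm
    exact h2.congr hterm
  have hS : Summable (fun N : ℕ => ((r ^ N : ℝ) : ℂ) * ((c * ((N : ℝ) + 1) : ℝ) : ℂ)) := by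
    have h1 : Summable (fun N : ℕ => ((r ^ N * (c * ((N : ℝ) + 1)) : ℝ) : ℂ)) := by
      rw [Complex.summable_ofReal]
      refine (hs1.summable.mul_left c).congr (fun n => ?_)
      ring
    refine h1.congr (fun n => ?_)
    push_cast
    ring
  have hSv : ∑' N : ℕ, ((r ^ N : ℝ) : ℂ) * ((c * ((N : ℝ) + 1) : ℝ) : ℂ) =
      ((c * (1 / (1 - r) ^ 2) : ℝ) : ℂ) := by
    rw [← hs1.tsum_eq, ← tsum_mul_left, Complex.ofReal_tsum]
    refine tsum_congr (fun n => ?_)
    push_cast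
    ring
  have hdiff : sa m X * (((1 - r)⁻¹ : ℝ) : ℂ) - ((c * (1 / (1 - r) ^ 2) : ℝ) : ℂ) =
      ∑' N : ℕ, ((r ^ N : ℝ) : ℂ) * ((∑ d ∈ Finset.range (N + 1), aa m d) -
        ((c * ((N : ℝ) + 1) : ℝ) : ℂ)) := by
    have h1 : sa m X * (((1 - r)⁻¹ : ℝ) : ℂ) =
      ∑' N : ℕ, ((r ^ N : ℝ) : ℂ) * ∑ d ∈ Finset.range (N + 1), aa m d := hcau
    rw [h1, ← hSv, ← hA.tsum_sub hS]
    refine tsum_congr (fun n => ?_)
    ring
  have hle : ∀ N : ℕ, ‖((r ^ N : ℝ) : ℂ) * ((∑ d ∈ Finset.range (N + 1), aa m d) -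
        ((c * ((N : ℝ) + 1) : ℝ) : ℂ))‖ ≤ K / 2 * ((((N : ℝ) + 1) / √X + √X) * r ^ N) := by
    intro N
    rw [norm_mul, Complex.norm_real, Real.norm_of_nonneg (pow_nonneg hr0.le N)]
    have h1 := h N
    have h2 := hroot N
    have h3 : 0 ≤ r ^ N := pow_nonneg hr0.le N
    calc r ^ N * ‖(∑ d ∈ Finset.range (N + 1), aa m d) - ((c * ((N : ℝ) + 1) : ℝ) : ℂ)‖
        ≤ r ^ N * (K * ((((N : ℝ) + 1) / √X + √X) / 2)) := by
          refine mul_le_mul_of_nonneg_left (h1.trans ?_) h3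
          exact mul_le_mul_of_nonneg_left h2 hK
      _ = K / 2 * ((((N : ℝ) + 1) / √X + √X) * r ^ N) := by ring
  have hnorm : ‖sa m X * (((1 - r)⁻¹ : ℝ) : ℂ) - ((c * (1 / (1 - r) ^ 2) : ℝ) : ℂ)‖ ≤
      K / 2 * ((1 / √X) * (1 / (1 - r) ^ 2) + √X * (1 - r)⁻¹) := by
    rw [hdiff, ← hBv, ← tsum_mul_left]
    refine tsum_of_norm_bounded (hB.mul_left (K / 2)).hasSum hle
  have h1r : 0 < 1 - r := by linarith
  have hfin : sa m X - ((c * (1 - r)⁻¹ : ℝ) : ℂ) =
      (((1 - r) : ℝ) : ℂ) * (sa m X * (((1 - r)⁻¹ : ℝ) : ℂ) - ((c * (1 / (1 - r) ^ 2) : ℝ) : ℂ)) := by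
    have hne : ((1 - r : ℝ) : ℂ) ≠ 0 := by
      rw [Complex.ofReal_ne_zero]
      exact h1r.ne'
    have h2 : ((c * (1 - r)⁻¹ : ℝ) : ℂ) = ((1 - r : ℝ) : ℂ) * ((c * (1 / (1 - r) ^ 2) : ℝ) : ℂ) := by
      rw [← Complex.ofReal_mul]
      congr 1
      field_simp
    have h3 : ((1 - r : ℝ) : ℂ) * (sa m X * (((1 - r)⁻¹ : ℝ) : ℂ)) = sa m X := by
      rw [Complex.ofReal_inv]
      field_simp
    rw [mul_sub, h3, ← h2]
  rw [hfin, norm_mul, Complex.norm_real, Real.norm_of_nonneg h1r.le]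
  have h3 : (1 - r)⁻¹ ≤ 2 * X := by
    rw [inv_le_comm₀ h1r (by positivity), ← one_div]
    exact one_sub_rr hX
  calc (1 - r) * ‖sa m X * (((1 - r)⁻¹ : ℝ) : ℂ) - ((c * (1 / (1 - r) ^ 2) : ℝ) : ℂ)‖
      ≤ (1 - r) * (K / 2 * ((1 / √X) * (1 / (1 - r) ^ 2) + √X * (1 - r)⁻¹)) :=
        mul_le_mul_of_nonneg_left hnorm h1r.le
    _ = K / 2 * ((1 / √X) * (1 - r)⁻¹ + √X) := by
        field_simp
    _ ≤ K / 2 * ((1 / √X) * (2 * X) + √X) := by
        gcongr
    _ = K / 2 * (3 * √X) := by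
        have h8 : (1 / √X) * (2 * X) = 2 * √X := by
          calc (1 / √X) * (2 * X) = (1 / √X) * (2 * (√X * √X)) := by rw [hX2]
            _ = 2 * √X := by field_simp
        rw [h8]
        ring
    _ ≤ 2 * K * √X := by nlinarith

open Classical in
/-- the limit of the averages -/
noncomputable def lm (m : ℕ) : ℝ := if IsSquare m then c0 * af m else 0

theorem sa_lim (hAVG : S_AVG) (m : ℕ) (hm : 1 ≤ m) :
    Tendsto (fun X : ℝ => sa m X / (X : ℂ)) atTop (𝓝 ((lm m : ℝ) : ℂ)) := by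
  obtain ⟨C, hC, h⟩ := hAVG
  have hK : 0 ≤ C * √m := by positivity
  have key : ∀ N : ℕ, ‖(∑ d ∈ Finset.range (N + 1), aa m d) -
      ((lm m * ((N : ℝ) + 1) : ℝ) : ℂ)‖ ≤ (C * √m) * √((N : ℝ) + 1) := by
    intro N
    have h1 := h 1 ((N : ℝ) + 1) m (Or.inl rfl) (by
      have : (0 : ℝ) ≤ N := Nat.cast_nonneg N
      linarith) hm
    rw [sum_aa]
    unfold lm
    by_cases hsq : IsSquare m
    · have h2 := h1.1 hsq
      rw [if_pos hsq]
      have e : c0 * af m * ((N : ℝ) + 1) = c0 * ((N : ℝ) + 1) * af m := by ring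
      rw [e]
      calc _ ≤ C * √((N : ℝ) + 1) * √m := h2
        _ = (C * √m) * √((N : ℝ) + 1) := by ring
    · have h2 := h1.2 hsq
      rw [if_neg hsq, zero_mul, Complex.ofReal_zero, sub_zero]
      calc _ ≤ C * √((N : ℝ) + 1) * √m := h2
        _ = (C * √m) * √((N : ℝ) + 1) := by ring
  have hd : Tendsto (fun X : ℝ => sa m X / (X : ℂ) - ((lm m * (X * (1 - rr X))⁻¹ : ℝ) : ℂ)) atTop
      (𝓝 0) := by
    have hb : Tendsto (fun X : ℝ => 2 * (C * √m) / √X) atTop (𝓝 0) :=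
      tendsto_const_nhds.div_atTop Real.tendsto_sqrt_atTop
    refine squeeze_zero_norm' ?_ hb
    filter_upwards [eventually_ge_atTop (1 : ℝ)] with X hX
    have hX0 : 0 < X := by linarith
    have h1 := sa_asymp m (lm m) (C * √m) hK key hX
    have hXc : (X : ℂ) ≠ 0 := by
      rw [Complex.ofReal_ne_zero]
      exact hX0.ne'
    have e : sa m X / (X : ℂ) - ((lm m * (X * (1 - rr X))⁻¹ : ℝ) : ℂ) =
        (sa m X - ((lm m * (1 - rr X)⁻¹ : ℝ) : ℂ)) / (X : ℂ) := by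
      rw [sub_div]
      congr 1
      rw [← Complex.ofReal_div]
      congr 1
      rw [mul_inv]
      field_simp
    rw [e, norm_div, Complex.norm_real, Real.norm_of_nonneg hX0.le, div_le_div_iff₀ hX0
      (Real.sqrt_pos.2 hX0)]
    have h2 : √X * √X = X := Real.mul_self_sqrt hX0.le
    calc ‖sa m X - ((lm m * (1 - rr X)⁻¹ : ℝ) : ℂ)‖ * √X ≤ (2 * (C * √m) * √X) * √X :=
          mul_le_mul_of_nonneg_right h1 (Real.sqrt_nonneg X)
      _ = 2 * (C * √m) * X := by rw [mul_assoc, h2]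
  have hl : Tendsto (fun X : ℝ => ((lm m * (X * (1 - rr X))⁻¹ : ℝ) : ℂ)) atTop
      (𝓝 ((lm m : ℝ) : ℂ)) := by
    have h1 : Tendsto (fun X : ℝ => lm m * (X * (1 - rr X))⁻¹) atTop (𝓝 (lm m * 1)) :=
      lim_rr.const_mul (lm m)
    rw [mul_one] at h1
    exact (Complex.continuous_ofReal.tendsto _).comp h1
  have h3 := hd.add hl
  simpa using h3

/-- the product of the powers -/
noncomputable def TT {k : ℕ} (s : Fin k → ℂ) (n : Fin k → ℕ) : ℂ := ∏ j, (n j : ℂ) ^ (-(s j))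

theorem TT_summable {k : ℕ} (s : Fin k → ℂ) (hs : ∀ j, 1 < (s j).re) :
    Summable (fun n : Fin k → ℕ => ‖TT s n‖) :=
  (prodsum k (fun j n => (n : ℂ) ^ (-(s j))) (fun j => summable_pow (s j) (hs j))).1

theorem TT_zero {k : ℕ} (s : Fin k → ℂ) (hs : ∀ j, 1 < (s j).re) (n : Fin k → ℕ)
    (h : ¬ ∀ j, 1 ≤ n j) : TT s n = 0 := by
  push Not at h
  obtain ⟨j, hj⟩ := h
  have hj0 : n j = 0 := by omega
  unfold TT
  refine Finset.prod_eq_zero (Finset.mem_univ j) ?_
  have h0 : -(s j) ≠ 0 := by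
    intro h
    have h1 := congrArg Complex.re h
    have h2 := hs j
    simp at h1
    linarith
  rw [hj0, Nat.cast_zero, Complex.zero_cpow h0]

theorem asum_eq (k M : ℕ) (s : Fin k → ℂ) (hs : ∀ j, 1 < (s j).re) {X : ℝ} (hX : 1 ≤ X) :
    asum k M s X = ∑' n : Fin k → ℕ, TT s n * sa (M * ∏ j, n j) X := by
  classical
  let Φ : ℕ → (Fin k → ℕ) → ℂ := fun d n => (aa (M * ∏ j, n j) d * ((rr X ^ d : ℝ) : ℂ)) * TT s n
  have hΦ : Summable (Function.uncurry Φ) := by
    refine Summable.of_norm ?_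
    have h1 : Summable (fun d : ℕ => ‖((rr X ^ d : ℝ) : ℂ)‖) := by
      refine (summable_geometric_of_lt_one (rr_pos X).le (rr_lt hX)).congr (fun d => ?_)
      rw [Complex.norm_real, Real.norm_of_nonneg (pow_nonneg (rr_pos X).le d)]
    have h2 := Summable.mul_norm h1 (TT_summable s hs)
    refine Summable.of_nonneg_of_le (fun _ => norm_nonneg _) ?_ h2
    rintro ⟨d, n⟩
    simp only [Function.uncurry, Φ]
    rw [norm_mul, norm_mul, norm_mul]
    refine mul_le_mul_of_nonneg_right ?_ (norm_nonneg _)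
    have h3 := norm_aa (M * ∏ j, n j) d
    have h4 := norm_nonneg ((rr X ^ d : ℝ) : ℂ)
    nlinarith
  have hterm : ∀ d : ℕ, (if Is 1 d then vl 1 d M * (∏ j : Fin k, LL 1 d (s j)) *
      ((Real.exp (-(d / X)) : ℝ) : ℂ) else 0) = ∑' n : Fin k → ℕ, Φ d n := by
    intro d
    by_cases hd : Is 1 d
    · rw [if_pos hd]
      have h1 : ∀ j : Fin k, Summable (fun n : ℕ => ‖vl 1 d n * (n : ℂ) ^ (-(s j))‖) := by
        intro j
        refine Summable.of_nonneg_of_le (fun _ => norm_nonneg _) (fun n => ?_)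
          (summable_pow (s j) (hs j))
        rw [norm_mul]
        have h3 := norm_vl_le d n
        have h4 := norm_nonneg ((n : ℂ) ^ (-(s j)))
        nlinarith
      have h2 := (prodsum k (fun j n => vl 1 d n * (n : ℂ) ^ (-(s j))) h1).2
      have h3 : ∏ j : Fin k, LL 1 d (s j) = ∏ j : Fin k, ∑' n : ℕ, vl 1 d n * (n : ℂ) ^ (-(s j)) :=
        Finset.prod_congr rfl (fun j _ => LL_ser d hd (s j) (hs j))
      rw [h3, ← h2, ← tsum_mul_left, ← tsum_mul_right]
      refine tsum_congr (fun n => ?_)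
      simp only [Φ, aa]
      rw [if_pos hd, vl_mul, vl_prod, Finset.prod_mul_distrib, rr_pow]
      unfold TT
      ring
    · rw [if_neg hd]
      have h1 : ∀ n, Φ d n = 0 := by
        intro n
        simp only [Φ, aa]
        rw [if_neg hd, zero_mul, zero_mul]
      simp only [h1, tsum_zero]
  have e1 : asum k M s X = ∑' d : ℕ, ∑' n : Fin k → ℕ, Φ d n := by
    unfold asum
    exact tsum_congr hterm
  rw [e1, ← hΦ.tsum_comm]
  refine tsum_congr (fun n => ?_)
  simp only [Φ]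
  rw [tsum_mul_right, mul_comm]
  rfl

theorem t_CLIM : S_AVG → S_CLIM := by
  intro hAVG k M s hM hs
  have h1 : ∀ᶠ X : ℝ in atTop, ∑' n : Fin k → ℕ, TT s n * (sa (M * ∏ j, n j) X / (X : ℂ)) =
      asum k M s X / (X : ℂ) := by
    filter_upwards [eventually_ge_atTop (1 : ℝ)] with X hX
    rw [asum_eq k M s hs hX, ← tsum_div_const]
    refine tsum_congr (fun n => ?_)
    rw [mul_div_assoc]
  have h2 : TM k M s = ∑' n : Fin k → ℕ, (c0 : ℂ) * tmt k M s n := by
    unfold TM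
    rw [tsum_mul_left]
  rw [h2]
  refine Tendsto.congr' h1 ?_
  refine tendsto_tsum_of_dominated_convergence (bound := fun n => ‖TT s n‖ * 2)
    ((TT_summable s hs).mul_right 2) (fun n => ?_) ?_
  · by_cases hn : ∀ j, 1 ≤ n j
    · have hm : 1 ≤ M * ∏ j, n j := by
        have h3 : 1 ≤ ∏ j, n j := Nat.succ_le_of_lt (Finset.prod_pos (fun j _ => hn j))
        exact Nat.one_le_iff_ne_zero.2 (Nat.mul_ne_zero (by omega) (by omega))
      have h3 := (sa_lim hAVG (M * ∏ j, n j) hm).const_mul (TT s n)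
      have h4 : (c0 : ℂ) * tmt k M s n = TT s n * ((lm (M * ∏ j, n j) : ℝ) : ℂ) := by
        unfold tmt lm
        by_cases hsq : IsSquare (M * ∏ j, n j)
        · rw [if_pos ⟨hn, hsq⟩, if_pos hsq]
          unfold TT
          push_cast
          ring
        · rw [if_neg (fun h => hsq h.2), if_neg hsq]
          simp
      rw [h4]
      exact h3
    · have h3 : TT s n = 0 := TT_zero s hs n hn
      have h4 : (c0 : ℂ) * tmt k M s n = 0 := by
        unfold tmt
        rw [if_neg (fun h => hn h.1), mul_zero]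
      rw [h4]
      simp only [h3, zero_mul]
      exact tendsto_const_nhds
  · filter_upwards [eventually_ge_atTop (1 : ℝ)] with X hX
    intro n
    rw [norm_mul]
    exact mul_le_mul_of_nonneg_left (sa_bound _ hX) (norm_nonneg _)

end Run7.h617.MD
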